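import Pool.Agent.H73.GMS.Stmts

set_option autoImplicit false

open Classical Cardinal

namespace GMS

theorem CTO : CTOStmt := by
  intro s hs
  have h1 : #(ℕ → Bool) ≤ #(Quotient s) * ℵ₀ := by
    have e : (ℕ → Bool) ≃ Σ q : Quotient s, {y // Quotient.mk s y = q} :=
      (Equiv.sigmaFiberEquiv (Quotient.mk s)).symm
    rw [Cardinal.mk_congr e, Cardinal.mk_sigma]
    calc Cardinal.sum (fun q : Quotient s => #{y // Quotient.mk s y = q})
        ≤ Cardinal.sum (fun _ : Quotient s => ℵ₀) := by
          apply Cardinal.sum_le_sum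
          intro q
          induction q using Quotient.inductionOn with
          | h x =>
            have h2 := (hs x).le_aleph0
            refine le_trans ?_ h2
            refine Cardinal.mk_le_of_injective (f := fun y => ⟨y.1, ?_⟩) ?_
            · exact s.symm (Quotient.exact y.2)
            · intro a b h
              exact Subtype.ext (congrArg (fun z => z.1) h)
      _ = #(Quotient s) * ℵ₀ := by
          rw [Cardinal.sum_const, Cardinal.lift_id, Cardinal.lift_id]
  have h0 : #(ℕ → Bool) = 𝔠 := by
    rw [← Cardinal.power_def, Cardinal.mk_nat, Cardinal.mk_bool, Cardinal.two_power_aleph0]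
  have h3 : #(ℕ → Bool) ≤ #(Quotient s) := by
    by_contra hc
    rw [not_le] at hc
    have h4 : #(Quotient s) * ℵ₀ < 𝔠 := by
      rw [h0] at hc
      exact Cardinal.mul_lt_of_lt Cardinal.aleph0_le_continuum hc Cardinal.aleph0_lt_continuum
    rw [h0] at h1
    exact absurd h1 (not_le.2 h4)
  obtain ⟨φ⟩ := (Cardinal.le_def _ _).1 h3
  refine ⟨fun x => (φ x).out, fun x y hxy h => hxy (φ.injective ?_)⟩
  have := Quotient.sound (s := s) h
  rwa [Quotient.out_eq, Quotient.out_eq] at this

end GMS
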