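import Pool.Agent.H73.GMS.Stmts

/-!
Project GMS: the conclusion, from the rows.
-/

set_option autoImplicit false

open Classical

namespace GMS

theorem cl_mono {F : Type*} [Group F] (K N₀ : Subgroup F) {S T : Set F} (h : S ⊆ T) :
    cl K N₀ S ≤ cl K N₀ T := by
  apply Subgroup.closure_mono
  apply Set.union_subset_union_left
  rintro x ⟨g, hg, s, hs, rfl⟩
  exact ⟨g, hg, s, h hs, rfl⟩

theorem subset_cl {F : Type*} [Group F] (K N₀ : Subgroup F) (S : Set F) :
    S ⊆ (cl K N₀ S : Set F) := by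
  intro s hs
  apply Subgroup.subset_closure
  left
  exact ⟨1, K.one_mem, s, hs, by simp⟩

theorem le_cl {F : Type*} [Group F] (K N₀ : Subgroup F) (S : Set F) : N₀ ≤ cl K N₀ S := by
  intro s hs
  apply Subgroup.subset_closure
  right
  exact hs

theorem cl_le {F : Type*} [Group F] (K N₀ : Subgroup F) (hN : N₀ ≤ K) {S : Set F}
    (h : S ⊆ (K : Set F)) : cl K N₀ S ≤ K := by
  rw [cl, Subgroup.closure_le]
  rintro x (⟨g, hg, s, hs, rfl⟩ | hx)
  · exact K.mul_mem (K.mul_mem hg (h hs)) (K.inv_mem hg)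
  · exact hN hx

theorem FIN (hEXM : ∀ α : Type, EXMStmt α) (hABS : ∀ α : Type, ABSStmt α) (hCTO : CTOStmt)
    (hCIS : ∀ (K : Type) [Group K], CISStmt K)
    (hGCH : ∀ (F : Type) [Group F], GCHStmt (F := F))
    (hMXG : ∀ (F : Type) [Group F], MXGStmt (F := F))
    (hKMN : ∀ (F : Type) [Group F], KMNStmt (F := F))
    (hRCK : ∀ k : ℕ, RCKStmt k) (hRBO : ∀ (A : Type) [Primcodable A], RBOStmt A)
    {k : ℕ} (rels : Finset (FreeGroup (Fin k)))
    (hinf : (Subgroup.normalClosure (rels : Set (FreeGroup (Fin k)))).index = 0) :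
    (∃ f : List (Fin k × Bool) →. Bool,
      Partrec f ∧
      (∀ w : List (Fin k × Bool), ∀ b ∈ f w,
        (b = true ↔ FreeGroup.mk w ∈
          Subgroup.normalClosure (rels : Set (FreeGroup (Fin k))))) ∧
      Filter.Tendsto
        (fun n : ℕ =>
          ({w : List (Fin k × Bool) | w.length ≤ n ∧ (f w).Dom}.ncard : ℝ) /
            ({w : List (Fin k × Bool) | w.length ≤ n}.ncard : ℝ))
        Filter.atTop (nhds 1)) ∨
    ∃ K : Subgroup (FreeGroup (Fin k)),
      K.Normal ∧ Subgroup.normalClosure (rels : Set (FreeGroup (Fin k))) ≤ K ∧ K.index ≠ 0 ∧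
      (∀ L : Subgroup (FreeGroup (Fin k)),
        Subgroup.normalClosure (rels : Set (FreeGroup (Fin k))) ≤ L → L.index ≠ 0 → K ≤ L) ∧
      ∀ T : Finset K,
        Subgroup.normalClosure ((T : Set K) ∪ {x : K | (x : FreeGroup (Fin k)) ∈
          Subgroup.normalClosure (rels : Set (FreeGroup (Fin k)))}) ≠ ⊤ →
        ∃ M : (ℕ → Bool) → Subgroup K, ∃ _ : ∀ x, (M x).Normal,
          (∀ x, (T : Set K) ⊆ M x ∧
            Subgroup.normalClosure (rels : Set (FreeGroup (Fin k))) ≤ (M x).map K.subtype ∧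
            IsSimpleGroup (K ⧸ M x) ∧ Infinite (K ⧸ M x) ∧
            ¬ REPred (fun w : List (Fin k × Bool) => FreeGroup.mk w ∉ (M x).map K.subtype)) ∧
          ∀ x y, x ≠ y → IsEmpty ((K ⧸ M x) ≃* (K ⧸ M y)) := by
  set N₀ : Subgroup (FreeGroup (Fin k)) :=
    Subgroup.normalClosure (rels : Set (FreeGroup (Fin k))) with hN₀
  have hN₀n : N₀.Normal := Subgroup.normalClosure_normal
  by_cases hgen : ∃ f : List (Fin k × Bool) →. Bool,
      Partrec f ∧
      (∀ w : List (Fin k × Bool), ∀ b ∈ f w, (b = true ↔ FreeGroup.mk w ∈ N₀)) ∧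
      Filter.Tendsto
        (fun n : ℕ =>
          ({w : List (Fin k × Bool) | w.length ≤ n ∧ (f w).Dom}.ncard : ℝ) /
            ({w : List (Fin k × Bool) | w.length ≤ n}.ncard : ℝ))
        Filter.atTop (nhds 1)
  · exact Or.inl hgen
  right
  have hb : ∃ n : ℕ, ∀ L : Subgroup (FreeGroup (Fin k)), N₀ ≤ L → L.index ≠ 0 →
      L.index < n := by
    by_contra hcon
    push Not at hcon
    exact hgen (GWP.profinite_generic rels fun n => by
      obtain ⟨L, h1, h2, h3⟩ := hcon n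
      exact ⟨L, h1, h2, h3⟩)
  obtain ⟨K, hKn, hNK, hK, hmin⟩ := hKMN (FreeGroup (Fin k)) N₀ hN₀n hb
  have hKfi : K.FiniteIndex := ⟨hK⟩
  have hKfg' : Group.FG K := Subgroup.fg_of_index_ne_zero (H := K)
  have hKfg : K.FG := (Group.fg_iff_subgroup_fg K).1 hKfg'
  have hne : N₀ ≠ K := by
    intro h
    rw [← h] at hK
    exact hK hinf
  have hF : FinChar (Gd K N₀) := hGCH _ K N₀ hKfg hNK hne
  -- facts on maximal sets
  have hM1 : ∀ S, Mx (Gd K N₀) S → S = (cl K N₀ S : Set (FreeGroup (Fin k))) :=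
    fun S hS => (hMXG _ K N₀ hNK hN₀n S hS).1
  have hM2 : ∀ S, Mx (Gd K N₀) S → cl K N₀ S ≤ K := fun S hS => cl_le K N₀ hNK hS.1.1
  have hM3 : ∀ S, Mx (Gd K N₀) S → (cl K N₀ S).index = 0 := by
    intro S hS
    by_contra h0
    exact hS.1.2 (le_antisymm (hM2 S hS) (hmin _ (le_cl K N₀ S) h0))
  have hM4 : ∀ S, Mx (Gd K N₀) S →
      ¬ REPred (fun w : List (Fin k × Bool) => FreeGroup.mk w ∉ cl K N₀ S) := by
    intro S hS hre
    exact hgen (GWP.coc_generic _ (cl K N₀ S) (le_cl K N₀ S) (hM3 S hS) hre)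
  have hKre : REPred (fun w : List (Fin k × Bool) => FreeGroup.mk w ∉ K) := by
    refine (GWP.re_profinite rels).of_eq fun w => ?_
    constructor
    · rintro ⟨L, h1, h2, h3⟩ h4
      exact h3 (hmin L h1 h2 h4)
    · intro h
      exact ⟨K, hNK, hK, h⟩
  -- no maximal set is determined by a finite subset
  have hnodet : ∀ N, Mx (Gd K N₀) N → ∀ T : Set (FreeGroup (Fin k)), T ⊆ N → T.Finite →
      (∀ N', Mx (Gd K N₀) N' → T ⊆ N' → N' = N) → False := by
    intro N hN T hTN hTf huniq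
    obtain ⟨S, hS⟩ := hKfg
    obtain ⟨r, U, hU⟩ : ∃ (r : ℕ) (U : Fin r → FreeGroup (Fin k)),
        Subgroup.closure (Set.range U) = K := by
      refine ⟨S.card, fun i => (S.equivFin.symm i : FreeGroup (Fin k)), ?_⟩
      rw [← hS]
      congr 1
      ext x
      constructor
      · rintro ⟨i, rfl⟩
        exact (S.equivFin.symm i).2
      · intro hx
        exact ⟨S.equivFin ⟨x, hx⟩, by simp⟩
    apply hM4 N hN
    have hre2 := (hRBO (List (Fin k × Bool))).2 r
      (fun i w => U i ∈ cl (Subgroup.closure (Set.range U)) N₀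
        ((hTf.toFinset : Set (FreeGroup (Fin k))) ∪ {FreeGroup.mk w}))
      (fun i => hRCK k r U rels hTf.toFinset (U i))
    refine ((hRBO (List (Fin k × Bool))).1 _ _ hKre hre2).of_eq fun w => ?_
    rw [hU, Set.Finite.coe_toFinset]
    constructor
    · rintro (h | h) hw
      · exact h (hM2 N hN hw)
      · have hwN : FreeGroup.mk w ∈ N := by
          rw [hM1 N hN]
          exact hw
        have h1 : T ∪ {FreeGroup.mk w} ⊆ N := by
          rintro x (hx | hx)
          · exact hTN hx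
          · rw [Set.mem_singleton_iff.1 hx]
            exact hwN
        have h2 : K ≤ cl K N₀ N := by
          refine le_trans ?_ (cl_mono K N₀ h1)
          conv_lhs => rw [← hU]
          rw [Subgroup.closure_le]
          rintro _ ⟨i, rfl⟩
          exact h i
        exact hN.1.2 (le_antisymm (hM2 N hN) h2)
    · intro h
      by_cases hwK : FreeGroup.mk w ∈ K
      · right
        by_contra hcon
        have hsub : T ∪ {FreeGroup.mk w} ⊆ (K : Set (FreeGroup (Fin k))) := by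
          rintro x (hx | hx)
          · exact hN.1.1 (hTN hx)
          · rw [Set.mem_singleton_iff.1 hx]
            exact hwK
        have hgd : Gd K N₀ (T ∪ {FreeGroup.mk w}) := by
          refine ⟨hsub, ?_⟩
          intro heq
          apply hcon
          intro i
          rw [heq, ← hU]
          exact Subgroup.subset_closure ⟨i, rfl⟩
        obtain ⟨N', hN', hTN'⟩ := hEXM _ (Gd K N₀) hF _ hgd
        have h3 := huniq N' hN' (Set.subset_union_left.trans hTN')
        apply h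
        apply subset_cl K N₀ N
        rw [← h3]
        exact hTN' (Or.inr rfl)
      · exact Or.inl hwK
  refine ⟨K, hKn, hNK, hK, hmin, ?_⟩
  intro T hT
  set T' : Set (FreeGroup (Fin k)) := Subtype.val '' (T : Set K) with hT'
  have hT'f : T'.Finite := T.finite_toSet.image _
  have hT'K : T' ⊆ (K : Set (FreeGroup (Fin k))) := by
    rintro _ ⟨x, _, rfl⟩
    exact x.2
  have hgT : Gd K N₀ T' := by
    refine ⟨hT'K, fun heq => hT ?_⟩
    have hle : K ≤ (Subgroup.normalClosure ((T : Set K) ∪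
        {x : K | (x : FreeGroup (Fin k)) ∈ N₀})).map K.subtype := by
      conv_lhs => rw [← heq]
      rw [cl, Subgroup.closure_le]
      rintro x (⟨g, hg, s, ⟨t, ht, rfl⟩, rfl⟩ | hx)
      · refine ⟨⟨g, hg⟩ * t * ⟨g, hg⟩⁻¹, ?_, rfl⟩
        exact Subgroup.normalClosure_normal.conj_mem t
          (Subgroup.subset_normalClosure (Or.inl ht)) ⟨g, hg⟩
      · exact ⟨⟨x, hNK hx⟩, Subgroup.subset_normalClosure (Or.inr hx), rfl⟩
    rw [eq_top_iff]
    intro x _
    obtain ⟨y, hy, hyx⟩ := hle x.2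
    have : y = x := Subtype.ext hyx
    rw [← this]
    exact hy
  have hFT : FinChar (fun S => Gd K N₀ (T' ∪ S)) := by
    refine ⟨by simpa using hgT, ?_, ?_⟩
    · intro S U hSU hU
      exact hF.2.1 _ _ (Set.union_subset_union_right _ hSU) hU
    · intro S hS
      apply hF.2.2
      intro U hU hUf
      refine hF.2.1 _ _ ?_ (hS (U \ T') ?_ (hUf.subset Set.sdiff_subset))
      · intro x hx
        by_cases h : x ∈ T'
        · exact Or.inl h
        · exact Or.inr ⟨hx, h⟩
      · rintro x ⟨hx, h⟩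
        exact (hU hx).resolve_left h
  have hTmx : ∀ S, Mx (fun S => Gd K N₀ (T' ∪ S)) S → Mx (Gd K N₀) S ∧ T' ⊆ S := by
    intro S hS
    have h1 : T' ∪ S = S := by
      apply hS.2 _ _ Set.subset_union_right
      show Gd K N₀ (T' ∪ (T' ∪ S))
      rw [← Set.union_assoc, Set.union_self]
      exact hS.1
    have h2 : T' ⊆ S := Set.union_eq_right.1 h1
    refine ⟨⟨?_, ?_⟩, h2⟩
    · have h3 : Gd K N₀ (T' ∪ S) := hS.1
      rwa [h1] at h3
    · intro U hU hSU
      apply hS.2 U _ hSU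
      show Gd K N₀ (T' ∪ U)
      rwa [Set.union_eq_right.2 (h2.trans hSU)]
  have hmxT : ∀ S, Mx (Gd K N₀) S → T' ⊆ S → Mx (fun S => Gd K N₀ (T' ∪ S)) S := by
    intro S hS h
    refine ⟨?_, ?_⟩
    · show Gd K N₀ (T' ∪ S)
      rw [Set.union_eq_right.2 h]
      exact hS.1
    · intro U hU hSU
      apply hS.2 U _ hSU
      have h3 : Gd K N₀ (T' ∪ U) := hU
      rwa [Set.union_eq_right.2 (h.trans hSU)] at h3
  rcases hABS (FreeGroup (Fin k)) inferInstance _ hFT with
    ⟨N, hN, T₁, hTN, hTf, huniq⟩ | ⟨f, hf, hmx'⟩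
  · exfalso
    refine hnodet N (hTmx N hN).1 (T' ∪ T₁) (Set.union_subset (hTmx N hN).2 hTN)
      (hT'f.union hTf) ?_
    intro N' hN' hsub
    exact huniq N' (hmxT N' hN' (Set.subset_union_left.trans hsub))
      (Set.subset_union_right.trans hsub)
  · have hmx : ∀ x, Mx (Gd K N₀) (f x) := fun x => (hTmx _ (hmx' x)).1
    have hTf' : ∀ x, T' ⊆ f x := fun x => (hTmx _ (hmx' x)).2
    set M₀ : (ℕ → Bool) → Subgroup K := fun x => (cl K N₀ (f x)).subgroupOf K with hM₀
    have hMn : ∀ x, (M₀ x).Normal := fun x => (hMXG _ K N₀ hNK hN₀n (f x) (hmx x)).2.choose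
    have hMs : ∀ x, IsSimpleGroup (K ⧸ M₀ x) := fun x =>
      (hMXG _ K N₀ hNK hN₀n (f x) (hmx x)).2.choose_spec
    have hmap : ∀ x, (M₀ x).map K.subtype = cl K N₀ (f x) := fun x =>
      Subgroup.map_subgroupOf_eq_of_le (hM2 _ (hmx x))
    have hinj : Function.Injective M₀ := by
      intro x y hxy
      apply hf
      rw [hM1 _ (hmx x), hM1 _ (hmx y), ← hmap x, ← hmap y, hxy]
    let s : Setoid (ℕ → Bool) :=
      { r := fun x y => Nonempty ((K ⧸ M₀ x) ≃* (K ⧸ M₀ y))
        iseqv := ⟨fun x => ⟨MulEquiv.refl _⟩, fun ⟨e⟩ => ⟨e.symm⟩,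
          fun ⟨e⟩ ⟨e'⟩ => ⟨e.trans e'⟩⟩ }
    have hcount : ∀ x, {y | s.r x y}.Countable := by
      intro x
      have h1 := hCIS K hKfg' (M₀ x) (hMn x)
      refine Set.Countable.mono ?_ (h1.preimage_of_injOn (f := M₀) hinj.injOn)
      rintro y ⟨e⟩
      exact ⟨hMn y, ⟨e.symm⟩⟩
    obtain ⟨g, hg⟩ := hCTO s hcount
    refine ⟨fun x => M₀ (g x), fun x => hMn (g x), fun x => ⟨?_, ?_, hMs (g x), ?_, ?_⟩, ?_⟩
    · intro t ht
      show (t : FreeGroup (Fin k)) ∈ cl K N₀ (f (g x))
      apply subset_cl K N₀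
      exact hTf' (g x) ⟨t, ht, rfl⟩
    · rw [hmap]
      exact le_cl K N₀ _
    · by_contra hfin
      rw [not_infinite_iff_finite] at hfin
      have h1 : (M₀ (g x)).index ≠ 0 := Subgroup.index_ne_zero_of_finite
      have h2 : (cl K N₀ (f (g x))).relIndex K * K.index = (cl K N₀ (f (g x))).index :=
        Subgroup.relIndex_mul_index (hM2 _ (hmx (g x)))
      have h3 : (cl K N₀ (f (g x))).index ≠ 0 := by
        rw [← h2]
        exact mul_ne_zero h1 hK
      exact h3 (hM3 _ (hmx (g x)))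
    · rw [hmap]
      exact hM4 _ (hmx (g x))
    · intro x y hxy
      constructor
      intro e
      exact hg x y hxy ⟨e⟩

end GMS
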