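import Pool.Agent.H67.GMS.EXM
import Pool.Agent.H36.GMS.SPL
import Pool.Agent.H34.GMS.ABS
import Pool.Agent.H34.GMS.RBO
import Pool.Agent.H73.GMS.CTO
import Pool.Agent.H46.GMS.CIS
import Pool.Agent.H45.GMS.GCH
import Pool.Agent.H53.GMS.MXG
import Pool.Agent.H72.GMS.KMN
import Pool.Agent.H80.GMS.RED
import Pool.Agent.H93.GMS.CLC
import Pool.Agent.H52.GMS.RCK
import Pool.Agent.H73.GMS.FIN

/-!
Project GMS: the theorem.
-/

set_option autoImplicit false

open Classical

namespace GMS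

theorem main {k : ℕ} (rels : Finset (FreeGroup (Fin k)))
    (hinf : (Subgroup.normalClosure (rels : Set (FreeGroup (Fin k)))).index = 0) :
    (∃ f : List (Fin k × Bool) →. Bool,
      Partrec f ∧
      (∀ w : List (Fin k × Bool), ∀ b ∈ f w,
        (b = true ↔ FreeGroup.mk w ∈
          Subgroup.normalClosure (rels : Set (FreeGroup (Fin k))))) ∧
      Filter.Tendsto
        (fun n : ℕ =>
          ({w : List (Fin k × Bool) | w.length ≤ n ∧ (f w).Dom}.ncard : ℝ) /
            ({w : List (Fin k × Bool) | w.length ≤ n}.ncard : ℝ))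
        Filter.atTop (nhds 1)) ∨
    ∃ K : Subgroup (FreeGroup (Fin k)),
      K.Normal ∧ Subgroup.normalClosure (rels : Set (FreeGroup (Fin k))) ≤ K ∧ K.index ≠ 0 ∧
      (∀ L : Subgroup (FreeGroup (Fin k)),
        Subgroup.normalClosure (rels : Set (FreeGroup (Fin k))) ≤ L → L.index ≠ 0 → K ≤ L) ∧
      ∀ T : Finset K,
        Subgroup.normalClosure ((T : Set K) ∪ {x : K | (x : FreeGroup (Fin k)) ∈
          Subgroup.normalClosure (rels : Set (FreeGroup (Fin k)))}) ≠ ⊤ →
        ∃ M : (ℕ → Bool) → Subgroup K, ∃ _ : ∀ x, (M x).Normal,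
          (∀ x, (T : Set K) ⊆ M x ∧
            Subgroup.normalClosure (rels : Set (FreeGroup (Fin k))) ≤ (M x).map K.subtype ∧
            IsSimpleGroup (K ⧸ M x) ∧ Infinite (K ⧸ M x) ∧
            ¬ REPred (fun w : List (Fin k × Bool) => FreeGroup.mk w ∉ (M x).map K.subtype)) ∧
          ∀ x y, x ≠ y → IsEmpty ((K ⧸ M x) ≃* (K ⧸ M y)) :=
  FIN (fun α => exm_thm α) (fun α => ABS α (SPL (exm_thm α))) CTO
    (fun K _ => CIS (K := K)) (fun F _ => GCH (F := F)) (fun F _ => MXG (F := F))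
    (fun F _ => KMN F) (fun k => RCK (clc_thm (RED k))) (fun A _ => RBO A) rels hinf

end GMS
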