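import Pool.Agent.H55.GWP.PRF

/-!
Project GMS (MP_213ba5_lc, many simple quotients): statements.

Theorem. Let `P` be an infinite finitely presented group whose word problem is not generically
computable. Then the finite residual `P₀` of `P` has finite index in `P` and has continuum many
pairwise non-isomorphic infinite simple quotients.

Everything is done inside the free group `F = FreeGroup (Fin k)`; `N₀` is the normal closure of the
relators, `K ≥ N₀` the preimage of `P₀`.
-/

set_option autoImplicit false

open Classical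

namespace GMS

/-! ### An abstract dichotomy -/

/-- a family of finite character -/
def FinChar {α : Type*} (Good : Set α → Prop) : Prop :=
  Good ∅ ∧ (∀ S T : Set α, S ⊆ T → Good T → Good S) ∧
    ∀ S : Set α, (∀ T : Set α, T ⊆ S → T.Finite → Good T) → Good S

/-- maximal members -/
def Mx {α : Type*} (Good : Set α → Prop) (S : Set α) : Prop :=
  Good S ∧ ∀ T : Set α, Good T → S ⊆ T → T = S

/-- **EXM** (every good set is contained in a maximal one). Zorn's lemma; the union of a chain of
good sets is good by finite character (a finite subset of the union of a nonempty chain lies in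
one member). -/
def EXMStmt (α : Type*) : Prop :=
  ∀ Good : Set α → Prop, FinChar Good → ∀ S, Good S → ∃ N, Mx Good N ∧ S ⊆ N

/-- **SPL** (splitting). Suppose that no maximal member is determined by a finite subset.  Then for
every finite good set `S` and every `a : α` there are finite good sets `S₀, S₁ ⊇ S` such that no
good set contains both, and `S_i` decides `a`: `a ∈ S_i` or `S_i ∪ {a}` is not good.  Proof: `EXM`:
`S ⊆ N` maximal, and by hypothesis `S ⊆ N'`, `N' ≠ N` maximal; `N ⊄ N'`, so choose
`w ∈ N`, `w ∉ N'`; `N' ∪ {w}` is not good, so by finite character there is a finite `G ⊆ N'` with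
`G ∪ {w}` not good (a finite bad subset of `N' ∪ {w}`, minus `w`; use monotonicity).  Take
`S ∪ {w} ⊆ N` and `S ∪ G ⊆ N'`, and for each of the two pairs `(S_i, N_i)`: if `a ∈ N_i` add `a`,
otherwise add a finite `G_i ⊆ N_i` with `G_i ∪ {a}` not good (the same argument). -/
def SPLStmt (α : Type*) : Prop :=
  ∀ Good : Set α → Prop, FinChar Good →
    (∀ N, Mx Good N → ∀ T : Set α, T ⊆ N → T.Finite → ∃ N', Mx Good N' ∧ T ⊆ N' ∧ N' ≠ N) →
    ∀ (S : Set α) (a : α), S.Finite → Good S →
      ∃ S₀ S₁ : Set α, S₀.Finite ∧ S₁.Finite ∧ Good S₀ ∧ Good S₁ ∧ S ⊆ S₀ ∧ S ⊆ S₁ ∧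
        (∀ T, Good T → ¬ (S₀ ⊆ T ∧ S₁ ⊆ T)) ∧
        (a ∈ S₀ ∨ ¬ Good (S₀ ∪ {a})) ∧ (a ∈ S₁ ∨ ¬ Good (S₁ ∪ {a}))

/-- **ABS** (dichotomy). For a family of finite character on a countable set either some maximal
member is determined by a finite subset, or there are continuum many maximal members.  Proof: let
`a : ℕ → α` be surjective (if `α` is empty, `∅` is maximal and the first alternative holds).  If the
first alternative fails, `SPL` gives two functions on the subtype of finite good sets: `(S, n) ↦
S₀, S₁` (for `a n`).  For `x : ℕ → Bool` define `F x 0 = ∅`, `F x (n+1) = S₁` or `S₀` of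
`(F x n, a n)` according to `x n`, and `f x = ⋃ n, F x n`.  `f x` is good (a finite subset lies in
some `F x n`), and maximal: if `f x ⊆ T` good and `v ∈ T`, `v = a n`, then `v ∈ F x (n+1)` or
`F x (n+1) ∪ {v} ⊆ T` is not good, which is impossible.  Injective: let `n` be the first place with
`x n ≠ y n`; then `F x n = F y n`, and `f x = f y` would contain both `S₀` and `S₁`. -/
def ABSStmt (α : Type*) : Prop :=
  Countable α → ∀ Good : Set α → Prop, FinChar Good →
    (∃ N, Mx Good N ∧ ∃ T : Set α, T ⊆ N ∧ T.Finite ∧ ∀ N', Mx Good N' → T ⊆ N' → N' = N) ∨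
    ∃ f : (ℕ → Bool) → Set α, Function.Injective f ∧ ∀ x, Mx Good (f x)

/-- **CTO** (selection). A relation on `ℕ → Bool` that is an equivalence relation with countable
classes has continuum many classes.  Proof: `Q` = the quotient; `#(ℕ → Bool) = 𝔠 ≤ #Q * ℵ₀`
(`Cardinal.mk_sigma` / the fibres of `Quotient.mk`), so `𝔠 ≤ #Q` (`Q` is infinite); take an
injection `(ℕ → Bool) ↪ Q` followed by `Quotient.out`. -/
def CTOStmt : Prop :=
  ∀ s : Setoid (ℕ → Bool), (∀ x, {y | s.r x y}.Countable) →
    ∃ g : (ℕ → Bool) → (ℕ → Bool), ∀ x y, x ≠ y → ¬ s.r (g x) (g y)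

/-- **CIS** (a finitely generated group has at most countably many normal subgroups with a given
quotient). `K` is countable and `G = K ⧸ M` is countable, so there are countably many
homomorphisms `K →* G` (determined by the images of finitely many generators); `M' ↦` the
composition of the projection with an isomorphism `K ⧸ M' ≃* G` is injective (its kernel is `M'`).
-/
def CISStmt (K : Type*) [Group K] : Prop :=
  Group.FG K → ∀ (M : Subgroup K) (_ : M.Normal),
    {M' : Subgroup K | ∃ _ : M'.Normal, Nonempty ((K ⧸ M') ≃* (K ⧸ M))}.Countable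

/-! ### The family of subsets of `K` -/

section fam

variable {F : Type*} [Group F]

/-- the smallest subgroup that contains `N₀` and `S` and is normalised by `K` -/
def cl (K N₀ : Subgroup F) (S : Set F) : Subgroup F :=
  Subgroup.closure ({x | ∃ g ∈ K, ∃ s ∈ S, x = g * s * g⁻¹} ∪ (N₀ : Set F))

/-- the good sets -/
def Gd (K N₀ : Subgroup F) (S : Set F) : Prop := S ⊆ (K : Set F) ∧ cl K N₀ S ≠ K

/-- **GCH** (the good sets have finite character). `K` is finitely generated and `N₀ ≤ K`,
`N₀ ≠ K`.  `cl ∅ = N₀`; monotone: clear (`cl S ≤ K` for `S ⊆ K`).  If all finite subsets are good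
then `S ⊆ K` (one point subsets); suppose `cl S = K = closure {u₁, …, u_r}`; each `u_i` lies in
`cl T_i`, `T_i ⊆ S` finite (`Subgroup.closure_induction`; `cl` is the directed union of the `cl T`,
`T` finite), so `T = ⋃ T_i` has `cl T = K`. -/
def GCHStmt : Prop :=
  ∀ K N₀ : Subgroup F, K.FG → N₀ ≤ K → N₀ ≠ K → FinChar (Gd K N₀)

/-- **MXG** (maximal good sets). If `S` is a maximal good set, then `S = cl S` (`cl S` is good:
`cl (cl S) = cl S`, it is normalised by `K` because `K` normalises `N₀`); as a subgroup of `K`,
`M = (cl S).subgroupOf K` is normal and `K ⧸ M` is simple: a normal subgroup of `K` that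
contains `M` properly is good unless it is `K` (`cl` of its image is its image). -/
def MXGStmt : Prop :=
  ∀ K N₀ : Subgroup F, N₀ ≤ K → N₀.Normal → ∀ S : Set F, Mx (Gd K N₀) S →
    S = (cl K N₀ S : Set F) ∧ ∃ _ : ((cl K N₀ S).subgroupOf K).Normal,
      IsSimpleGroup (K ⧸ (cl K N₀ S).subgroupOf K)

/-- **KMN** (the finite residual). If the indices of the subgroups of finite index above `N₀` are
bounded, there is a smallest one: take `K` of maximal index; `K ⊓ L` has finite index
(`Subgroup.index_inf_ne_zero`) at least that of `K`, and `K ⊓ L ≤ K`, so `K ⊓ L = K`.  `K` is normal: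
its conjugates have finite index and contain `N₀`, so `K ≤ g K g⁻¹` for all `g`. -/
def KMNStmt : Prop :=
  ∀ N₀ : Subgroup F, N₀.Normal →
    (∃ n : ℕ, ∀ L : Subgroup F, N₀ ≤ L → L.index ≠ 0 → L.index < n) →
    ∃ K : Subgroup F, K.Normal ∧ N₀ ≤ K ∧ K.index ≠ 0 ∧
      ∀ L : Subgroup F, N₀ ≤ L → L.index ≠ 0 → K ≤ L

end fam

/-! ### Enumerability -/

/-- **RED** (reduction of words is primitive recursive). `FreeGroup.reduce` is
`L.foldr (fun hd t => match t with | [] => [hd] | hd2 :: tl2 => if hd.1 = hd2.1 ∧ hd.2 = !hd2.2
then tl2 else hd :: hd2 :: tl2) []` (`FreeGroup.reduce.cons`); `Primrec.list_foldr`,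
`Primrec.list_casesOn`, `Primrec.ite`. -/
def REDStmt (k : ℕ) : Prop :=
  Primrec (FreeGroup.reduce : List (Fin k × Bool) → List (Fin k × Bool))

/-- **CLC** (a subgroup with enumerated generators). `Gen w n` a word, primitive recursive in
`(w, n)`; `u` fixed.  The words `w` such that `u` lies in the subgroup generated by the elements
`mk (Gen w n)`, `n ∈ ℕ`, are computably enumerable.  Proof: `GWP.PRF_ex` with the certificates
`c : List (ℕ × Bool)`; the test is `reduce (c.flatMap (fun p => bif p.2 then Gen w p.1 else
FreeGroup.invRev (Gen w p.1))) = u.toWord` (`RED`; `invRev L = (L.map (fun s => (s.1, !s.2))).reverse`);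
`FreeGroup.reduce` and `mk`: `FreeGroup.reduce.exact`, `FreeGroup.toWord_mk`; elements of a closure are
such products: `Subgroup.closure_induction`. -/
def CLCStmt (k : ℕ) : Prop :=
  ∀ (Gen : List (Fin k × Bool) → ℕ → List (Fin k × Bool)), Primrec₂ Gen →
    ∀ u : FreeGroup (Fin k),
      REPred (fun w : List (Fin k × Bool) =>
        u ∈ Subgroup.closure (Set.range (fun n : ℕ => FreeGroup.mk (Gen w n))))

/-- **RCK** (`cl` is enumerable). `K = closure (range U)`, `N₀` the normal closure of the finite
set `rels`, `T` finite.  By `CLC`: let `n` code a triple `(g, h, j)` with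
`g : List (Fin r × Bool)` (a word in the `U i`), `h : List (Fin k × Bool)`, `j : ℕ`; `Gen w n` is
`ev g ++ s ++ invRev (ev g)`, where `s` is `w` if `j = 0` and the `j`-th word of the finite list of the
`toWord` of the elements of `T` (if there is one), or `h ++ r_i ++ invRev h` with `r_i` the word of
the `i`-th relator (if `j = |T| + i` + 1), and `[]` in all other cases; `ev g` is the concatenation
of the words `(U i).toWord` or their inverses.  If `n` codes nothing: `[]`. -/
def RCKStmt (k : ℕ) : Prop :=
  ∀ (r : ℕ) (U : Fin r → FreeGroup (Fin k)) (rels T : Finset (FreeGroup (Fin k)))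
    (u : FreeGroup (Fin k)),
    REPred (fun w : List (Fin k × Bool) =>
      u ∈ cl (Subgroup.closure (Set.range U))
        (Subgroup.normalClosure (rels : Set (FreeGroup (Fin k))))
        ((T : Set (FreeGroup (Fin k))) ∪ {FreeGroup.mk w}))

/-- **RBO** (enumerable predicates are closed under `or` and finite `and`). `or`: `Partrec.merge'`
or a search over the steps; `and`: `Partrec.bind`/`Partrec.map`; induction on `r`. -/
def RBOStmt (A : Type) [Primcodable A] : Prop :=
  (∀ p q : A → Prop, REPred p → REPred q → REPred (fun a => p a ∨ q a)) ∧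
  (∀ (r : ℕ) (p : Fin r → A → Prop), (∀ i, REPred (p i)) → REPred (fun a => ∀ i, p i a))

end GMS
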